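import Pool.Agent.Y276.WL.Base

/-!
Failure of the weak Lebesgue property for Banach spaces with a large biorthogonal system which
is small on flat vectors.
-/

namespace Pool.Agent.Y276.WL

open MeasureTheory Set Filter Topology Cardinal

universe u v

variable {X : Type v} [NormedAddCommGroup X] [NormedSpace ℝ X]

/-- The convex combinations with small coefficients of the vectors `u i` are small. -/
def FlatSmall {I : Type u} (u : I → X) : Prop :=
  ∀ ε : ℝ, 0 < ε → ∃ δ : ℝ, 0 < δ ∧ ∀ (s : Finset I) (w : I → ℝ),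
    (∀ i ∈ s, 0 ≤ w i ∧ w i ≤ δ) → ∑ i ∈ s, w i ≤ 1 → ‖∑ i ∈ s, w i • u i‖ < ε

theorem FlatSmall.comp {Γ : Type u} {I : Type} {v : Γ → X} (hv : FlatSmall v) (ι : I ↪ Γ) :
    FlatSmall (fun i => v (ι i)) := by
  classical
  intro ε hε
  obtain ⟨δ, hδ, h⟩ := hv ε hε
  refine ⟨δ, hδ, fun s w hw hs => ?_⟩
  have hext : ∀ i, Function.extend ι w 0 (ι i) = w i := fun i => ι.injective.extend_apply w 0 i
  have h1 := h (s.map ι) (Function.extend ι w 0) (by
    intro γ hγ
    obtain ⟨i, hi, rfl⟩ := Finset.mem_map.1 hγ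
    rw [hext]
    exact hw i hi) (by
    rw [Finset.sum_map]
    simp only [hext]
    exact hs)
  rw [Finset.sum_map] at h1
  simp only [hext] at h1
  exact h1

section Fn

variable {I : Type} [Nonempty I] (u : I → X) (G : I → Set ℝ)

open Classical in
/-- an index `a` with `t ∈ G a`, if there is one -/
noncomputable def lab (t : unitInterval) : I :=
  if h : ∃ a : I, (t : ℝ) ∈ G a then h.choose else Classical.arbitrary I

open Classical in
/-- choice function of the family `G` -/
noncomputable def fn (t : unitInterval) : X :=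
  if ∃ a : I, (t : ℝ) ∈ G a then u (lab G t) else 0

theorem lab_spec (t : unitInterval) (ht : ∃ a : I, (t : ℝ) ∈ G a) : (t : ℝ) ∈ G (lab G t) := by
  classical
  rw [lab, dif_pos ht]
  exact ht.choose_spec

/-- the function is nowhere weakly continuous on the union of the null sets `G a` -/
theorem fn_not_cont (g : I → StrongDual ℝ X) (h1 : ∀ a, g a (u a) = 1)
    (h0 : ∀ a b, a ≠ b → g a (u b) = 0) (hG : ∀ a, volume (G a) = 0) (t : unitInterval)
    (ht : ∃ a : I, (t : ℝ) ∈ G a) :
    ¬ ContinuousAt (fun s => toWeakSpace ℝ X (fn u G s)) t := by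
  classical
  intro hcont
  set a := lab G t with ha
  have hft : fn u G t = u a := if_pos ht
  have hc1 : ContinuousAt (fun s => g a (fn u G s)) t := by
    have h2 : Continuous (fun x : WeakSpace ℝ X => (g a) ((toWeakSpace ℝ X).symm x)) :=
      WeakBilin.eval_continuous _ (g a)
    have h3 := h2.continuousAt.comp hcont
    exact h3
  have h2 : ∀ᶠ s in 𝓝 t, (0 : ℝ) < g a (fn u G s) := by
    apply hc1.eventually_const_lt
    change (0 : ℝ) < g a (fn u G t)
    rw [hft, h1]; norm_num
  have h3 : {s : unitInterval | (s : ℝ) ∈ G a} ∈ 𝓝 t := by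
    filter_upwards [h2] with s hs
    by_cases hex : ∃ b : I, (s : ℝ) ∈ G b
    · have hfs : fn u G s = u (lab G s) := if_pos hex
      rw [hfs] at hs
      have hab : a = lab G s := by
        by_contra hne
        rw [h0 _ _ hne] at hs
        exact lt_irrefl _ hs
      have := lab_spec G s hex
      rw [← hab] at this
      exact this
    · have hfs : fn u G s = 0 := if_neg hex
      rw [hfs, map_zero] at hs
      exact absurd hs (lt_irrefl _)
  obtain ⟨δ, hδ, hball⟩ := Metric.mem_nhds_iff.mp h3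
  have hsub : Set.Icc (max 0 ((t : ℝ) - δ / 2)) (min 1 ((t : ℝ) + δ / 2)) ⊆ G a := by
    intro x hx
    have hx0 : 0 ≤ x := (le_max_left _ _).trans hx.1
    have hx1 : x ≤ 1 := hx.2.trans (min_le_left _ _)
    have hx2 : (t : ℝ) - δ / 2 ≤ x := (le_max_right _ _).trans hx.1
    have hx3 : x ≤ (t : ℝ) + δ / 2 := hx.2.trans (min_le_right _ _)
    have : (⟨x, hx0, hx1⟩ : unitInterval) ∈ Metric.ball t δ := by
      rw [Metric.mem_ball, Subtype.dist_eq, Real.dist_eq, abs_lt]
      constructor <;> simp only <;> linarith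
    exact hball this
  have hvol := measure_mono (μ := volume) hsub
  rw [hG a, Real.volume_Icc] at hvol
  have h4 : min 1 ((t : ℝ) + δ / 2) - max 0 ((t : ℝ) - δ / 2) ≤ 0 := by
    have := le_antisymm hvol bot_le
    exact ENNReal.ofReal_eq_zero.mp this
  have ht0 := t.2.1
  have ht1 := t.2.2
  have h5 : max 0 ((t : ℝ) - δ / 2) < min 1 ((t : ℝ) + δ / 2) := by
    rw [max_lt_iff, lt_min_iff, lt_min_iff]
    refine ⟨⟨by norm_num, by linarith⟩, ⟨by linarith, by linarith⟩⟩
  linarith

end Fn

theorem fn_integrable {I : Type} [Nonempty I] (u : I → X) (hu : FlatSmall u) (c : ℕ → ℕ)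
    (y : I → ∀ i, Fin (c i)) :
    HasRiemannIntegral (fn u (fun a => F c (y a))) 0 := by
  classical
  set G : I → Set ℝ := fun a => F c (y a) with hGdef
  intro ε hε
  obtain ⟨δ, hδ, hfl⟩ := hu ε hε
  obtain ⟨m, hm⟩ := exists_nat_gt (3 / δ)
  have hK : (0 : ℝ) < K c m := by exact_mod_cast K_pos c m
  refine ⟨1 / K c m, by positivity, ?_⟩
  intro p a t ha0 hap h
  set w : ℕ → ℝ := fun j => a (j + 1) - a j with hw
  have hw0 : ∀ j ∈ Finset.range p, 0 ≤ w j := by
    intro j hj
    have := h j (Finset.mem_range.mp hj)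
    simp only [hw]; linarith [this.1, this.2.1]
  have hsum : ∑ j ∈ Finset.range p, w j = 1 := by
    simp only [hw]; rw [Finset.sum_range_sub, ha0, hap, sub_zero]
  rw [sub_zero]
  set J' : Finset ℕ := (Finset.range p).filter (fun j => ∃ b : I, ((t j : unitInterval) : ℝ) ∈ G b)
    with hJ'
  have h1 : ∑ j ∈ Finset.range p, w j • fn u G (t j) = ∑ j ∈ J', w j • u (lab G (t j)) := by
    rw [hJ', Finset.sum_filter]
    refine Finset.sum_congr rfl fun j _ => ?_
    by_cases hj : ∃ b : I, ((t j : unitInterval) : ℝ) ∈ G b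
    · rw [if_pos hj, fn, if_pos hj]
    · rw [if_neg hj, fn, if_neg hj, smul_zero]
  set W : I → ℝ := fun b => ∑ j ∈ J' with lab G (t j) = b, w j with hW
  have h2 : ∑ j ∈ J', w j • u (lab G (t j)) =
      ∑ b ∈ J'.image (fun j => lab G (t j)), W b • u b := by
    rw [← Finset.sum_fiberwise_of_maps_to (t := J'.image (fun j => lab G (t j)))
      (g := fun j => lab G (t j)) (fun j hj => Finset.mem_image_of_mem _ hj)]
    refine Finset.sum_congr rfl fun b _ => ?_
    rw [hW, Finset.sum_smul]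
    refine Finset.sum_congr rfl fun j hj => ?_
    rw [(Finset.mem_filter.1 hj).2]
  have h3 : ∑ b ∈ J'.image (fun j => lab G (t j)), W b = ∑ j ∈ J', w j := by
    rw [← Finset.sum_fiberwise_of_maps_to (t := J'.image (fun j => lab G (t j)))
      (g := fun j => lab G (t j)) (fun j hj => Finset.mem_image_of_mem _ hj)]
  have hm0 : (0 : ℝ) < m + 1 := by positivity
  have hgoal := hfl (J'.image (fun j => lab G (t j))) W (by
    intro b _
    constructor
    · refine Finset.sum_nonneg fun j hj => hw0 j ?_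
      exact (Finset.mem_filter.1 (Finset.mem_filter.1 hj).1).1
    · have h4 : W b ≤ 3 / (m + 1) := by
        apply tagged_length c (y b) m p a (fun k => ((t k : unitInterval) : ℝ)) h
        intro j hj
        obtain ⟨hj1, hj2⟩ := Finset.mem_filter.1 hj
        obtain ⟨hj3, hj4⟩ := Finset.mem_filter.1 hj1
        refine ⟨Finset.mem_range.1 hj3, ?_⟩
        have h5 := lab_spec G (t j) hj4
        rw [hj2] at h5
        exact h5
      refine h4.trans ?_
      rw [div_lt_iff₀ hδ] at hm
      rw [div_le_iff₀ hm0]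
      nlinarith) (by
    rw [h3, ← hsum]
    exact Finset.sum_le_sum_of_subset_of_nonneg (Finset.filter_subset _ _)
      fun j hj _ => hw0 j hj)
  rw [h1, h2]
  exact hgoal

/-- Failure of the weak Lebesgue property. -/
theorem not_WLP {Γ : Type u} (h : Cardinal.lift.{u} nonSN ≤ #Γ) (v : Γ → X)
    (g : Γ → StrongDual ℝ X) (hg1 : ∀ γ, g γ (v γ) = 1) (hg0 : ∀ γ β, γ ≠ β → g γ (v β) = 0)
    (hv : FlatSmall v) : ¬ WLP X := by
  intro hW
  obtain ⟨A, hA, hAn, ⟨ι⟩⟩ := exists_nonSMZ Γ h
  have hne : Nonempty A := by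
    by_contra hcon
    rw [not_nonempty_iff, isEmpty_coe_sort] at hcon
    rw [hcon] at hAn
    exact hAn smz_empty
  unfold StrongMeasureZero at hAn
  push Not at hAn
  obtain ⟨ε, hε, hcov⟩ := hAn
  obtain ⟨c, hc⟩ := exists_seq ε hε
  have hnn := union_not_null A hA ε hε hcov c (fun i => (hc i).1) (fun i => (hc i).2)
  set y : A → ∀ i, Fin (c i) := fun a => code c (fun i => (hc i).1) ⟨a.1, hA a.2⟩ with hy
  set u : A → X := fun a => v (ι a) with hu
  have hfl : FlatSmall u := hv.comp ι
  have hae := hW (fn u (fun a => F c (y a))) ⟨0, fn_integrable u hfl c y⟩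
  apply hnn
  have h1 : ∀ᵐ x : unitInterval, (x : ℝ) ∉ ⋃ a : A, F c (y a) := by
    filter_upwards [hae] with x hx hmem
    obtain ⟨a, ha⟩ := mem_iUnion.mp hmem
    exact fn_not_cont u (fun a => F c (y a)) (fun a => g (ι a)) (fun a => hg1 (ι a))
      (fun a b hab => hg0 _ _ (fun h => hab (ι.injective h)))
      (fun a => volume_F c (y a)) x ⟨a, ha⟩ hx
  have h2 : ∀ᵐ x ∂(volume.restrict unitInterval), x ∉ ⋃ a : A, F c (y a) :=
    (ae_restrict_iff_subtype (s := unitInterval) measurableSet_Icc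
      (p := fun x => x ∉ ⋃ a : A, F c (y a))).mpr h1
  have h3 : ∀ᵐ x : ℝ, x ∈ unitInterval → x ∉ ⋃ a : A, F c (y a) :=
    (ae_restrict_iff' measurableSet_Icc).mp h2
  have h4 : ∀ᵐ x : ℝ, x ∉ ⋃ a : A, F c (y a) := by
    filter_upwards [h3] with x hx hmem
    refine hx ?_ hmem
    obtain ⟨a, ha⟩ := mem_iUnion.mp hmem
    have h5 := mem_iInter.mp ha 0
    rw [mem_iUnion₂] at h5
    obtain ⟨σ, hσ, hσ2⟩ := h5
    have h6 : σ = 0 := by simpa [Adm] using hσ
    subst h6
    simpa [J, K] using hσ2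
  rw [ae_iff] at h4
  have h5 : {x : ℝ | ¬ x ∉ ⋃ a : A, F c (y a)} = ⋃ a : A, F c (y a) := by
    ext x; simp only [Set.mem_ofPred_eq, not_not]
  rw [h5] at h4
  exact h4

end Pool.Agent.Y276.WL
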