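import Pool.Agent.Y276.WL.Pos
import Pool.Agent.Y276.WL.Neg

/-!
The weak Lebesgue property of `c₀(Γ)`.
-/

namespace Pool.Agent.Y276.WL

open MeasureTheory Set Filter Topology Cardinal
open scoped ENNReal

universe u

/-- The space `c₀(Γ)`, as a subspace of `ℓ^∞(Γ)`: the families tending to `0` along the cofinite
filter. -/
def c0 (Γ : Type u) : Submodule ℝ (lp (fun _ : Γ => ℝ) ∞) where
  carrier := {x | Tendsto (fun i => x i) cofinite (𝓝 0)}
  add_mem' := by
    intro x y hx hy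
    have h := Tendsto.add hx hy
    rw [add_zero] at h
    exact h
  zero_mem' := by
    change Tendsto (fun _ : Γ => (0 : ℝ)) cofinite (𝓝 0)
    exact tendsto_const_nhds
  smul_mem' := by
    intro c x hx
    have h := Tendsto.const_mul c hx
    rw [mul_zero] at h
    exact h

variable {Γ : Type u}

/-- coordinates -/
noncomputable def crd (γ : Γ) : StrongDual ℝ (c0 Γ) :=
  (lp.evalCLM ℝ (fun _ : Γ => ℝ) ∞ γ).comp (c0 Γ).subtypeL

lemma crd_apply (γ : Γ) (x : c0 Γ) : crd γ x = (x : lp (fun _ : Γ => ℝ) ∞) γ := rfl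

lemma c0_norm_le {x : c0 Γ} {C : ℝ} (hC : 0 ≤ C) (h : ∀ i, |crd i x| ≤ C) : ‖x‖ ≤ C :=
  lp.norm_le_of_forall_le (f := (x : lp (fun _ : Γ => ℝ) ∞)) hC h

lemma crd_le (x : c0 Γ) (i : Γ) : |crd i x| ≤ ‖x‖ :=
  lp.norm_apply_le_norm (ENNReal.top_ne_zero) (x : lp (fun _ : Γ => ℝ) ∞) i

open Classical in
/-- unit vectors -/
noncomputable def ev (γ : Γ) : c0 Γ := ⟨lp.single ∞ γ (1 : ℝ), by
  refine Tendsto.congr' ?_ tendsto_const_nhds
  filter_upwards [(Set.finite_singleton γ).eventually_cofinite_notMem] with i hi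
  rw [lp.single_apply_ne _ _ _ hi]⟩

lemma crd_ev_self (γ : Γ) : crd γ (ev γ) = 1 := by
  classical
  rw [crd_apply]
  exact lp.single_apply_self _ _ _

lemma crd_ev_ne {γ β : Γ} (h : γ ≠ β) : crd γ (ev β) = 0 := by
  classical
  rw [crd_apply]
  exact lp.single_apply_ne _ _ _ h

lemma crd_sum_mem (w : Γ → ℝ) (T : Finset Γ) {j : Γ} (hj : j ∈ T) :
    crd j (∑ i ∈ T, w i • ev i) = w j := by
  classical
  rw [map_sum, Finset.sum_eq_single j]
  · rw [map_smul, crd_ev_self, smul_eq_mul, mul_one]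
  · intro i _ hij
    rw [map_smul, crd_ev_ne hij.symm, smul_zero]
  · intro h
    exact absurd hj h

lemma crd_sum_notMem (w : Γ → ℝ) (T : Finset Γ) {j : Γ} (hj : j ∉ T) :
    crd j (∑ i ∈ T, w i • ev i) = 0 := by
  rw [map_sum]
  refine Finset.sum_eq_zero fun i hi => ?_
  rw [map_smul, crd_ev_ne, smul_zero]
  rintro rfl
  exact hj hi

/-- truncation -/
noncomputable def tr (x : c0 Γ) (T : Finset Γ) : c0 Γ := ∑ i ∈ T, (crd i x) • ev i

lemma crd_tr_mem (x : c0 Γ) (T : Finset Γ) {j : Γ} (hj : j ∈ T) : crd j (tr x T) = crd j x :=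
  crd_sum_mem _ T hj

lemma crd_tr_notMem (x : c0 Γ) (T : Finset Γ) {j : Γ} (hj : j ∉ T) : crd j (tr x T) = 0 :=
  crd_sum_notMem _ T hj

lemma tendsto_tr (x : c0 Γ) : Tendsto (fun T => tr x T) atTop (𝓝 x) := by
  classical
  rw [Metric.tendsto_atTop]
  intro ε hε
  have h1 : Tendsto (fun i => (x : lp (fun _ : Γ => ℝ) ∞) i) cofinite (𝓝 0) := x.2
  have h2 := (Metric.tendsto_nhds.1 h1) (ε / 2) (by positivity)
  rw [eventually_cofinite] at h2
  refine ⟨h2.toFinset, fun T hT => ?_⟩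
  rw [dist_eq_norm]
  have h3 : ‖tr x T - x‖ ≤ ε / 2 := by
    refine c0_norm_le (by positivity) fun i => ?_
    rw [map_sub]
    by_cases hi : i ∈ T
    · rw [crd_tr_mem x T hi, sub_self, abs_zero]
      positivity
    · rw [crd_tr_notMem x T hi, zero_sub, abs_neg]
      by_contra hcon
      apply hi
      apply hT
      rw [Set.Finite.mem_toFinset]
      intro h4
      rw [Real.dist_eq, sub_zero] at h4
      exact hcon h4.le
  linarith

lemma c0_tail (ψ : StrongDual ℝ (c0 Γ)) (ε : ℝ) (hε : 0 < ε) :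
    ∃ S : Finset Γ, ∀ x : c0 Γ, (∀ i ∈ S, crd i x = 0) → ‖x‖ ≤ 1 → |ψ x| ≤ ε := by
  classical
  by_contra hcon
  push Not at hcon
  have step1 : ∀ S : Finset Γ, ∃ (x : c0 Γ) (T : Finset Γ), (∀ i ∈ S, crd i x = 0) ∧
      (∀ i ∉ T, crd i x = 0) ∧ ‖x‖ ≤ 1 ∧ ε / 2 ≤ ψ x := by
    intro S
    obtain ⟨x, hx1, hx2, hx3⟩ := hcon S
    have h1 : Tendsto (fun T => |ψ (tr x T)|) atTop (𝓝 |ψ x|) :=
      ((ψ.continuous.tendsto x).comp (tendsto_tr x)).abs
    obtain ⟨T, hT⟩ := (h1.eventually_const_lt (show ε / 2 < |ψ x| by linarith)).exists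
    have hz : ∀ i ∈ S, crd i (tr x T) = 0 := by
      intro i hi
      by_cases h : i ∈ T
      · rw [crd_tr_mem x T h, hx1 i hi]
      · exact crd_tr_notMem x T h
    have hn : ‖tr x T‖ ≤ 1 := by
      refine c0_norm_le zero_le_one fun i => ?_
      by_cases h : i ∈ T
      · rw [crd_tr_mem x T h]
        exact (crd_le x i).trans hx2
      · rw [crd_tr_notMem x T h, abs_zero]
        exact zero_le_one
    rcases le_total 0 (ψ (tr x T)) with h | h
    · rw [abs_of_nonneg h] at hT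
      exact ⟨tr x T, T, hz, fun i hi => crd_tr_notMem x T hi, hn, hT.le⟩
    · rw [abs_of_nonpos h] at hT
      refine ⟨-tr x T, T, fun i hi => ?_, fun i hi => ?_, by rw [norm_neg]; exact hn, ?_⟩
      · rw [map_neg, hz i hi, neg_zero]
      · rw [map_neg, crd_tr_notMem x T hi, neg_zero]
      · rw [map_neg]
        exact hT.le
  have step2 : ∀ n : ℕ, ∃ (s : c0 Γ) (T : Finset Γ), (∀ i ∉ T, crd i s = 0) ∧
      ‖s‖ ≤ 1 ∧ n * (ε / 2) ≤ ψ s := by
    intro n
    induction n with
    | zero =>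
      refine ⟨0, ∅, fun i _ => map_zero _, ?_, ?_⟩
      · rw [norm_zero]
        exact zero_le_one
      · simp
    | succ n ih =>
      obtain ⟨s, T, h1, h2, h3⟩ := ih
      obtain ⟨x, T', hx1, hx2, hx3, hx4⟩ := step1 T
      refine ⟨s + x, T ∪ T', fun i hi => ?_, ?_, ?_⟩
      · rw [Finset.mem_union, not_or] at hi
        rw [map_add, h1 i hi.1, hx2 i hi.2, add_zero]
      · refine c0_norm_le zero_le_one fun i => ?_
        rw [map_add]
        by_cases hi : i ∈ T
        · rw [hx1 i hi, add_zero]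
          exact (crd_le s i).trans h2
        · rw [h1 i hi, zero_add]
          exact (crd_le x i).trans hx3
      · rw [map_add]
        push_cast
        linarith
  obtain ⟨n, hn⟩ := exists_nat_gt (2 * ‖ψ‖ / ε)
  obtain ⟨s, T, _, h2, h3⟩ := step2 n
  have h4 : ψ s ≤ ‖ψ‖ := by
    refine (le_abs_self _).trans ?_
    have h6 := ψ.le_opNorm s
    rw [Real.norm_eq_abs] at h6
    refine h6.trans ?_
    calc ‖ψ‖ * ‖s‖ ≤ ‖ψ‖ * 1 := by gcongr
      _ = ‖ψ‖ := mul_one _
  rw [div_lt_iff₀ hε] at hn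
  linarith

/-- The coordinate functionals generate a dense subspace of the dual of `c₀(Γ)`. -/
theorem c0_dense : Dense (Submodule.span ℝ (range fun γ : Γ => crd γ) :
    Set (StrongDual ℝ (c0 Γ))) := by
  classical
  refine (Metric.dense_iff (α := StrongDual ℝ (c0 Γ))).2 fun ψ r hr => ?_
  obtain ⟨S, hS⟩ := c0_tail ψ (r / 2) (by positivity)
  set χ : StrongDual ℝ (c0 Γ) := ∑ γ ∈ S, ψ (ev γ) • crd γ with hχ
  refine ⟨χ, ?_, ?_⟩
  · rw [Metric.mem_ball, dist_comm]
    refine lt_of_eq_of_lt (dist_eq_norm ψ χ) ?_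
    have hb : ‖ψ - χ‖ ≤ r / 2 := by
      refine ContinuousLinearMap.opNorm_le_bound _ (by positivity) fun x => ?_
      have h1 : (ψ - χ) x = ψ (x - tr x S) := by
        have h2 : χ x = ψ (tr x S) := by
          rw [hχ, tr, map_sum, ContinuousLinearMap.sum_apply]
          refine Finset.sum_congr rfl fun γ _ => ?_
          rw [map_smul, ContinuousLinearMap.smul_apply, smul_eq_mul, smul_eq_mul, mul_comm]
        rw [map_sub, ← h2]
        rfl
      rw [h1, Real.norm_eq_abs]
      have hz : ∀ i ∈ S, crd i (x - tr x S) = 0 := by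
        intro i hi
        rw [map_sub, crd_tr_mem x S hi, sub_self]
      have hn : ‖x - tr x S‖ ≤ ‖x‖ := by
        refine c0_norm_le (norm_nonneg _) fun i => ?_
        rw [map_sub]
        by_cases h : i ∈ S
        · rw [crd_tr_mem x S h, sub_self, abs_zero]
          exact norm_nonneg _
        · rw [crd_tr_notMem x S h, sub_zero]
          exact crd_le x i
      rcases eq_or_ne x 0 with hx | hx
      · have h2 : ‖x - tr x S‖ = 0 := by
          refine le_antisymm ?_ (norm_nonneg _)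
          rw [hx, norm_zero] at hn
          rw [hx]
          exact hn
        rw [norm_eq_zero.1 h2, map_zero, abs_zero]
        positivity
      · have hx0 : 0 < ‖x‖ := norm_pos_iff.2 hx
        have h2 := hS (‖x‖⁻¹ • (x - tr x S)) (by
          intro i hi
          rw [map_smul, hz i hi, smul_zero]) (by
          rw [norm_smul, norm_inv, norm_norm, inv_mul_le_iff₀ hx0, mul_one]
          exact hn)
        rw [map_smul, smul_eq_mul, abs_mul, abs_inv, abs_norm, inv_mul_le_iff₀ hx0] at h2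
        linarith
    linarith
  · exact Submodule.sum_mem _ fun γ _ => Submodule.smul_mem _ _ (Submodule.subset_span ⟨γ, rfl⟩)

theorem c0_flat : FlatSmall (fun γ : Γ => ev γ) := by
  intro ε hε
  refine ⟨ε / 2, by positivity, fun s w hw _ => ?_⟩
  have h : ‖∑ i ∈ s, w i • ev i‖ ≤ ε / 2 := by
    refine c0_norm_le (by positivity) fun i => ?_
    by_cases hi : i ∈ s
    · rw [crd_sum_mem w s hi, abs_of_nonneg (hw i hi).1]
      exact (hw i hi).2
    · rw [crd_sum_notMem w s hi, abs_zero]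
      positivity
  linarith

/-- The weak Lebesgue property of `c₀(Γ)`. -/
theorem c0_iff (Γ : Type u) : WLP (c0 Γ) ↔ #Γ < Cardinal.lift.{u} nonSN := by
  constructor
  · intro h
    by_contra hcon
    exact not_WLP (not_lt.1 hcon) (fun γ : Γ => ev γ) (fun γ => crd γ) crd_ev_self
      (fun γ β hγ => crd_ev_ne hγ) c0_flat h
  · intro h
    exact WLP_of_small h (fun γ : Γ => crd γ) c0_dense

end Pool.Agent.Y276.WL
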