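import Pool.Agent.Y276.WL.Pos
import Pool.Agent.Y276.WL.Neg

/-!
The weak Lebesgue property of `ℓ^p(Γ)`, `1 < p < ∞`.
-/

namespace Pool.Agent.Y276.WL

open MeasureTheory Set Filter Topology Cardinal
open scoped ENNReal

universe u

/-- the space `ℓ^p(Γ)` -/
abbrev LP (p : ℝ≥0∞) (Γ : Type u) : Type u := lp (fun _ : Γ => ℝ) p

variable {Γ : Type u} {p : ℝ≥0∞} [Fact (1 ≤ p)]

lemma norm_add_rpow (hp0 : 0 < p.toReal) (x y : LP p Γ) (h : ∀ i, x i = 0 ∨ y i = 0) :
    ‖x + y‖ ^ p.toReal = ‖x‖ ^ p.toReal + ‖y‖ ^ p.toReal := by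
  rw [lp.norm_rpow_eq_tsum hp0, lp.norm_rpow_eq_tsum hp0, lp.norm_rpow_eq_tsum hp0,
    ← ((lp.memℓp x).summable hp0).tsum_add ((lp.memℓp y).summable hp0)]
  refine tsum_congr fun i => ?_
  rw [lp.coeFn_add, Pi.add_apply]
  rcases h i with h | h
  · rw [h, zero_add, norm_zero, Real.zero_rpow hp0.ne', zero_add]
  · rw [h, add_zero, norm_zero, Real.zero_rpow hp0.ne', add_zero]

lemma norm_le_of_coord (hp0 : 0 < p.toReal) (x y : LP p Γ) (h : ∀ i, ‖x i‖ ≤ ‖y i‖) :
    ‖x‖ ≤ ‖y‖ := by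
  have h1 : ‖x‖ ^ p.toReal ≤ ‖y‖ ^ p.toReal := by
    rw [lp.norm_rpow_eq_tsum hp0, lp.norm_rpow_eq_tsum hp0]
    refine ((lp.memℓp x).summable hp0).tsum_le_tsum (fun i => ?_) ((lp.memℓp y).summable hp0)
    exact Real.rpow_le_rpow (norm_nonneg _) (h i) hp0.le
  exact (Real.rpow_le_rpow_iff (norm_nonneg _) (norm_nonneg _) hp0).1 h1

open Classical in
/-- truncation to a finite set -/
noncomputable def trunc (x : LP p Γ) (T : Finset Γ) : LP p Γ := ∑ i ∈ T, lp.single p i (x i)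

lemma trunc_of_mem (x : LP p Γ) (T : Finset Γ) {j : Γ} (hj : j ∈ T) : trunc x T j = x j := by
  classical
  rw [trunc, lp.coeFn_sum, Finset.sum_apply, Finset.sum_eq_single j]
  · rw [lp.single_apply_self]
  · intro i _ hij
    rw [lp.single_apply_ne _ _ _ hij.symm]
  · intro h
    exact absurd hj h

lemma trunc_of_notMem (x : LP p Γ) (T : Finset Γ) {j : Γ} (hj : j ∉ T) : trunc x T j = 0 := by
  classical
  rw [trunc, lp.coeFn_sum, Finset.sum_apply]
  refine Finset.sum_eq_zero fun i hi => ?_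
  rw [lp.single_apply_ne]
  rintro rfl
  exact hj hi

lemma tendsto_trunc (hp : p ≠ ⊤) (x : LP p Γ) : Tendsto (fun T => trunc x T) atTop (𝓝 x) := by
  classical
  have h := lp.hasSum_single (E := fun _ : Γ => ℝ) hp x
  rw [HasSum, SummationFilter.unconditional_filter] at h
  exact h

lemma tail (hp1 : 1 < p) (hp : p ≠ ⊤) (ψ : StrongDual ℝ (LP p Γ)) (ε : ℝ) (hε : 0 < ε) :
    ∃ S : Finset Γ, ∀ x : LP p Γ, (∀ i ∈ S, x i = 0) → ‖x‖ ≤ 1 → |ψ x| ≤ ε := by
  classical
  have hpr : 1 < p.toReal := by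
    have := (ENNReal.toReal_lt_toReal ENNReal.one_ne_top hp).2 hp1
    simpa using this
  have hp0 : 0 < p.toReal := by linarith
  by_contra hcon
  push Not at hcon
  have step1 : ∀ S : Finset Γ, ∃ (x : LP p Γ) (T : Finset Γ), (∀ i ∈ S, x i = 0) ∧
      (∀ i ∉ T, x i = 0) ∧ ‖x‖ ≤ 1 ∧ ε / 2 ≤ ψ x := by
    intro S
    obtain ⟨x, hx1, hx2, hx3⟩ := hcon S
    have h1 : Tendsto (fun T => |ψ (trunc x T)|) atTop (𝓝 |ψ x|) :=
      ((ψ.continuous.tendsto x).comp (tendsto_trunc hp x)).abs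
    obtain ⟨T, hT⟩ := (h1.eventually_const_lt (show ε / 2 < |ψ x| by linarith)).exists
    have hz : ∀ i ∈ S, trunc x T i = 0 := by
      intro i hi
      by_cases h : i ∈ T
      · rw [trunc_of_mem x T h, hx1 i hi]
      · exact trunc_of_notMem x T h
    have hn : ‖trunc x T‖ ≤ 1 := by
      refine (norm_le_of_coord hp0 _ x fun i => ?_).trans hx2
      by_cases h : i ∈ T
      · rw [trunc_of_mem x T h]
      · rw [trunc_of_notMem x T h, norm_zero]
        exact norm_nonneg _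
    rcases le_total 0 (ψ (trunc x T)) with h | h
    · rw [abs_of_nonneg h] at hT
      exact ⟨trunc x T, T, hz, fun i hi => trunc_of_notMem x T hi, hn, hT.le⟩
    · rw [abs_of_nonpos h] at hT
      refine ⟨-trunc x T, T, fun i hi => ?_, fun i hi => ?_, by rw [norm_neg]; exact hn, ?_⟩
      · rw [lp.coeFn_neg, Pi.neg_apply, hz i hi, neg_zero]
      · rw [lp.coeFn_neg, Pi.neg_apply, trunc_of_notMem x T hi, neg_zero]
      · rw [map_neg]
        exact hT.le
  have step2 : ∀ n : ℕ, ∃ (s : LP p Γ) (T : Finset Γ), (∀ i ∉ T, s i = 0) ∧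
      ‖s‖ ^ p.toReal ≤ n ∧ n * (ε / 2) ≤ ψ s := by
    intro n
    induction n with
    | zero =>
      refine ⟨0, ∅, fun i _ => rfl, ?_, ?_⟩
      · rw [norm_zero, Real.zero_rpow hp0.ne']
        simp
      · simp
    | succ n ih =>
      obtain ⟨s, T, h1, h2, h3⟩ := ih
      obtain ⟨x, T', hx1, hx2, hx3, hx4⟩ := step1 T
      refine ⟨s + x, T ∪ T', fun i hi => ?_, ?_, ?_⟩
      · rw [Finset.mem_union, not_or] at hi
        rw [lp.coeFn_add, Pi.add_apply, h1 i hi.1, hx2 i hi.2, add_zero]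
      · rw [norm_add_rpow hp0 s x fun i => ?_]
        · have h4 : ‖x‖ ^ p.toReal ≤ 1 := Real.rpow_le_one (norm_nonneg _) hx3 hp0.le
          push_cast
          linarith
        · by_cases hi : i ∈ T
          · exact Or.inr (hx1 i hi)
          · exact Or.inl (h1 i hi)
      · rw [map_add]
        push_cast
        linarith
  have hexp : 0 < 1 - 1 / p.toReal := by
    have : 1 / p.toReal < 1 := by
      rw [div_lt_one hp0]
      exact hpr
    linarith
  have step3 : ∀ n : ℕ, 0 < n → (n : ℝ) ^ (1 - 1 / p.toReal) * (ε / 2) ≤ ‖ψ‖ := by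
    intro n hn
    obtain ⟨s, T, _, h2, h3⟩ := step2 n
    have hn0 : (0 : ℝ) < n := by exact_mod_cast hn
    have h4 : ‖s‖ ≤ (n : ℝ) ^ (1 / p.toReal) := by
      have h5 : ‖s‖ = (‖s‖ ^ p.toReal) ^ (1 / p.toReal) := by
        rw [← Real.rpow_mul (norm_nonneg _), mul_one_div_cancel hp0.ne', Real.rpow_one]
      rw [h5]
      exact Real.rpow_le_rpow (by positivity) h2 (by positivity)
    have h5 : ψ s ≤ ‖ψ‖ * (n : ℝ) ^ (1 / p.toReal) := by
      refine ((le_abs_self _).trans ?_)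
      have h6 := ψ.le_opNorm s
      rw [Real.norm_eq_abs] at h6
      exact h6.trans (by gcongr)
    have h6 : (n : ℝ) = (n : ℝ) ^ (1 - 1 / p.toReal) * (n : ℝ) ^ (1 / p.toReal) := by
      rw [← Real.rpow_add hn0, sub_add_cancel, Real.rpow_one]
    have h7 : (0 : ℝ) < (n : ℝ) ^ (1 / p.toReal) := Real.rpow_pos_of_pos hn0 _
    have h8 : ((n : ℝ) ^ (1 - 1 / p.toReal) * (ε / 2)) * (n : ℝ) ^ (1 / p.toReal) ≤
        ‖ψ‖ * (n : ℝ) ^ (1 / p.toReal) := by
      calc ((n : ℝ) ^ (1 - 1 / p.toReal) * (ε / 2)) * (n : ℝ) ^ (1 / p.toReal)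
          = ((n : ℝ) ^ (1 - 1 / p.toReal) * (n : ℝ) ^ (1 / p.toReal)) * (ε / 2) := by ring
        _ = n * (ε / 2) := by rw [← h6]
        _ ≤ ψ s := h3
        _ ≤ _ := h5
    exact le_of_mul_le_mul_right h8 h7
  have hlim : Tendsto (fun n : ℕ => (n : ℝ) ^ (1 - 1 / p.toReal)) atTop atTop :=
    (tendsto_rpow_atTop hexp).comp tendsto_natCast_atTop_atTop
  obtain ⟨n, hn, hn0⟩ := ((hlim.eventually_gt_atTop (2 * ‖ψ‖ / ε)).and
    (eventually_gt_atTop 0)).exists
  have h1 := step3 n hn0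
  rw [div_lt_iff₀ hε] at hn
  linarith

/-- The coordinate functionals generate a dense subspace of the dual. -/
theorem dense_coord (hp1 : 1 < p) (hp : p ≠ ⊤) :
    Dense (Submodule.span ℝ (range fun γ : Γ => lp.evalCLM ℝ (fun _ : Γ => ℝ) p γ) :
      Set (StrongDual ℝ (LP p Γ))) := by
  classical
  have hpr : 1 < p.toReal := by
    have := (ENNReal.toReal_lt_toReal ENNReal.one_ne_top hp).2 hp1
    simpa using this
  have hp0 : 0 < p.toReal := by linarith
  rw [Metric.dense_iff]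
  intro ψ r hr
  obtain ⟨S, hS⟩ := tail hp1 hp ψ (r / 2) (by positivity)
  set χ : StrongDual ℝ (LP p Γ) :=
    ∑ γ ∈ S, ψ (lp.single p γ (1 : ℝ)) • (lp.evalCLM ℝ (fun _ : Γ => ℝ) p γ) with hχ
  refine ⟨χ, ?_, ?_⟩
  · rw [Metric.mem_ball, dist_comm, dist_eq_norm]
    have hb : ‖ψ - χ‖ ≤ r / 2 := by
      refine ContinuousLinearMap.opNorm_le_bound _ (by positivity) fun x => ?_
      have h1 : (ψ - χ) x = ψ (x - trunc x S) := by
        have h2 : χ x = ψ (trunc x S) := by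
          rw [hχ, trunc, map_sum, ContinuousLinearMap.sum_apply]
          refine Finset.sum_congr rfl fun γ _ => ?_
          have h3 : (lp.single p γ (x γ) : LP p Γ) = x γ • lp.single p γ (1 : ℝ) := by
            rw [← lp.single_smul]
            simp
          rw [h3, map_smul, ContinuousLinearMap.smul_apply, smul_eq_mul, smul_eq_mul, mul_comm]
          rfl
        rw [map_sub, ← h2]
        rfl
      rw [h1, Real.norm_eq_abs]
      have hz : ∀ i ∈ S, (x - trunc x S) i = 0 := by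
        intro i hi
        rw [lp.coeFn_sub, Pi.sub_apply, trunc_of_mem x S hi, sub_self]
      have hn : ‖x - trunc x S‖ ≤ ‖x‖ := by
        refine norm_le_of_coord hp0 _ _ fun i => ?_
        rw [lp.coeFn_sub, Pi.sub_apply]
        by_cases h : i ∈ S
        · rw [trunc_of_mem x S h, sub_self, norm_zero]
          exact norm_nonneg _
        · rw [trunc_of_notMem x S h, sub_zero]
      rcases eq_or_ne x 0 with hx | hx
      · have h2 : ‖x - trunc x S‖ = 0 := by
          refine le_antisymm ?_ (norm_nonneg _)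
          rw [hx, norm_zero] at hn
          rw [hx]
          exact hn
        rw [norm_eq_zero.1 h2, map_zero, abs_zero]
        positivity
      · have hx0 : 0 < ‖x‖ := norm_pos_iff.2 hx
        have h2 := hS (‖x‖⁻¹ • (x - trunc x S)) (by
          intro i hi
          rw [lp.coeFn_smul, Pi.smul_apply, hz i hi, smul_zero]) (by
          rw [norm_smul, norm_inv, norm_norm, inv_mul_le_iff₀ hx0, mul_one]
          exact hn)
        rw [map_smul, smul_eq_mul, abs_mul, abs_inv, abs_norm, inv_mul_le_iff₀ hx0] at h2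
        linarith
    linarith
  · exact Submodule.sum_mem _ fun γ _ => Submodule.smul_mem _ _ (Submodule.subset_span ⟨γ, rfl⟩)

/-- Flat combinations of unit vectors are small. -/
theorem flat_single (hp1 : 1 < p) (hp : p ≠ ⊤) [DecidableEq Γ] :
    FlatSmall (fun γ : Γ => (lp.single p γ (1 : ℝ) : LP p Γ)) := by
  have hpr : 1 < p.toReal := by
    have := (ENNReal.toReal_lt_toReal ENNReal.one_ne_top hp).2 hp1
    simpa using this
  have hp0 : 0 < p.toReal := by linarith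
  intro ε hε
  have hlim : Tendsto (fun δ : ℝ => δ ^ (p.toReal - 1)) (𝓝[>] 0) (𝓝 0) := by
    have h1 : ContinuousAt (fun δ : ℝ => δ ^ (p.toReal - 1)) 0 :=
      Real.continuousAt_rpow_const _ _ (Or.inr (by linarith))
    have h2 := h1.tendsto
    rw [Real.zero_rpow (by linarith)] at h2
    exact h2.mono_left nhdsWithin_le_nhds
  have hεp : 0 < ε ^ p.toReal := Real.rpow_pos_of_pos hε _
  obtain ⟨δ, hδ1, hδ2⟩ := ((hlim.eventually_lt_const hεp).and self_mem_nhdsWithin).exists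
  have hδ0 : 0 < δ := hδ2
  refine ⟨δ, hδ0, fun s w hw hs => ?_⟩
  have hnorm : ‖∑ i ∈ s, w i • (lp.single p i (1 : ℝ) : LP p Γ)‖ ^ p.toReal =
      ∑ i ∈ s, ‖w i‖ ^ p.toReal := by
    have h1 : ∑ i ∈ s, w i • (lp.single p i (1 : ℝ) : LP p Γ) = ∑ i ∈ s, lp.single p i (w i) := by
      refine Finset.sum_congr rfl fun i _ => ?_
      rw [← lp.single_smul]
      simp
    rw [h1]
    exact lp.norm_sum_single hp0 w s
  have hle : ∑ i ∈ s, ‖w i‖ ^ p.toReal ≤ δ ^ (p.toReal - 1) := by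
    calc ∑ i ∈ s, ‖w i‖ ^ p.toReal ≤ ∑ i ∈ s, δ ^ (p.toReal - 1) * w i := by
          refine Finset.sum_le_sum fun i hi => ?_
          obtain ⟨h1, h2⟩ := hw i hi
          rw [Real.norm_of_nonneg h1]
          rcases h1.eq_or_lt with h3 | h3
          · rw [← h3, Real.zero_rpow hp0.ne', mul_zero]
          · have h4 : w i ^ p.toReal = w i ^ (p.toReal - 1) * w i := by
              rw [← Real.rpow_add_one h3.ne', sub_add_cancel]
            rw [h4]
            gcongr
      _ = δ ^ (p.toReal - 1) * ∑ i ∈ s, w i := by rw [Finset.mul_sum]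
      _ ≤ δ ^ (p.toReal - 1) * 1 := by gcongr
      _ = _ := mul_one _
  have h3 : ‖∑ i ∈ s, w i • (lp.single p i (1 : ℝ) : LP p Γ)‖ ^ p.toReal < ε ^ p.toReal := by
    rw [hnorm]
    exact hle.trans_lt hδ1
  exact (Real.rpow_lt_rpow_iff (norm_nonneg _) hε.le hp0).1 h3

/-- The weak Lebesgue property of `ℓ^p(Γ)`, `1 < p < ∞`. -/
theorem lp_iff (p : ℝ≥0∞) [Fact (1 ≤ p)] (hp1 : 1 < p) (hp : p ≠ ⊤) (Γ : Type u) :
    WLP (LP p Γ) ↔ #Γ < Cardinal.lift.{u} nonSN := by
  classical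
  constructor
  · intro h
    by_contra hcon
    refine not_WLP (not_lt.1 hcon) (fun γ : Γ => (lp.single p γ (1 : ℝ) : LP p Γ))
      (fun γ => lp.evalCLM ℝ (fun _ : Γ => ℝ) p γ) (fun γ => ?_) (fun γ β hγ => ?_)
      (flat_single hp1 hp) h
    · change (lp.single p γ (1 : ℝ) : LP p Γ) γ = 1
      rw [lp.single_apply_self]
    · change (lp.single p β (1 : ℝ) : LP p Γ) γ = 0
      rw [lp.single_apply_ne _ _ _ hγ]
  · intro h
    exact WLP_of_small h (fun γ : Γ => lp.evalCLM ℝ (fun _ : Γ => ℝ) p γ) (dense_coord hp1 hp)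

end Pool.Agent.Y276.WL
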