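import Pool.Agent.Y276.WL.Base

/-!
The weak Lebesgue property of all Banach spaces whose dual has a dense subspace generated by
fewer than `non(SN)` functionals.
-/

namespace Pool.Agent.Y276.WL

open MeasureTheory Set Filter Topology Cardinal

universe u v

variable {X : Type v} [NormedAddCommGroup X] [NormedSpace ℝ X]

open Classical in
/-- cells on which `φ ∘ f` oscillates by more than `1/(n+1)` -/
noncomputable def Osc (φ : X →L[ℝ] ℝ) (f : unitInterval → X) (n N : ℕ) : Finset (Fin N) :=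
  Finset.univ.filter (fun j => ∃ s t : unitInterval, InCell N j s ∧ InCell N j t ∧
    1 / ((n : ℝ) + 1) < φ (f s) - φ (f t))

theorem card_Osc (φ : X →L[ℝ] ℝ) (hφ : ‖φ‖ ≤ 1) (f : unitInterval → X) (n N : ℕ) (ε : ℝ)
    (hN : 0 < N)
    (h : ∀ s t : ℕ → unitInterval, (∀ j < N, InCell N j (s j) ∧ InCell N j (t j)) →
      ‖∑ j ∈ Finset.range N, (1 / (N : ℝ)) • (f (s j) - f (t j))‖ < ε) :
    ((Osc φ f n N).card : ℝ) ≤ ε * (n + 1) * N := by
  classical
  have hN' : (0 : ℝ) < N := by exact_mod_cast hN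
  let s : ℕ → unitInterval := fun j => if hj : ∃ s t : unitInterval, InCell N j s ∧ InCell N j t ∧
    1 / ((n : ℝ) + 1) < φ (f s) - φ (f t) then hj.choose else base N j
  let t : ℕ → unitInterval := fun j => if hj : ∃ s t : unitInterval, InCell N j s ∧ InCell N j t ∧
    1 / ((n : ℝ) + 1) < φ (f s) - φ (f t) then hj.choose_spec.choose else base N j
  have h1 := h s t (by
    intro j hj
    simp only [s, t]
    split_ifs with hex
    · exact ⟨hex.choose_spec.choose_spec.1, hex.choose_spec.choose_spec.2.1⟩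
    · exact ⟨base_mem N j hj, base_mem N j hj⟩)
  set v := ∑ j ∈ Finset.range N, (1 / (N : ℝ)) • (f (s j) - f (t j)) with hv
  have h2 : |φ v| ≤ ‖v‖ := by
    have h := φ.le_opNorm v
    rw [Real.norm_eq_abs] at h
    refine h.trans ?_
    calc ‖φ‖ * ‖v‖ ≤ 1 * ‖v‖ := by gcongr
      _ = ‖v‖ := one_mul _
  have h3 : φ v = ∑ j ∈ Finset.range N, (1 / (N : ℝ)) * (φ (f (s j)) - φ (f (t j))) := by
    rw [hv, map_sum]
    refine Finset.sum_congr rfl fun j _ => ?_
    rw [map_smul, map_sub, smul_eq_mul]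
  have h4 : ((Osc φ f n N).card : ℝ) * (1 / (N : ℝ) * (1 / ((n : ℝ) + 1))) ≤ φ v := by
    rw [h3, ← Fin.sum_univ_eq_sum_range (fun j => (1 / (N : ℝ)) *
      (φ (f (s j)) - φ (f (t j)))) N]
    calc ((Osc φ f n N).card : ℝ) * (1 / (N : ℝ) * (1 / ((n : ℝ) + 1)))
        = ∑ j ∈ Osc φ f n N, (1 / (N : ℝ) * (1 / ((n : ℝ) + 1))) := by
          rw [Finset.sum_const, nsmul_eq_mul]
      _ ≤ ∑ j ∈ Osc φ f n N, (1 / (N : ℝ)) * (φ (f (s j)) - φ (f (t j))) := by
          apply Finset.sum_le_sum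
          intro j hj
          apply mul_le_mul_of_nonneg_left _ (by positivity)
          have hex := (Finset.mem_filter.mp hj).2
          simp only [s, t, dif_pos hex]
          exact hex.choose_spec.choose_spec.2.2.le
      _ ≤ ∑ j : Fin N, (1 / (N : ℝ)) * (φ (f (s j)) - φ (f (t j))) := by
          apply Finset.sum_le_sum_of_subset_of_nonneg (Finset.subset_univ _)
          intro j _ hj
          apply mul_nonneg (by positivity)
          simp only [s, t]
          split_ifs with hex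
          · have := hex.choose_spec.choose_spec.2.2
            have hp : (0 : ℝ) < 1 / ((n : ℝ) + 1) := by positivity
            linarith
          · simp
  have h5 : ((Osc φ f n N).card : ℝ) * (1 / (N : ℝ) * (1 / ((n : ℝ) + 1))) < ε :=
    (h4.trans ((le_abs_self _).trans h2)).trans_lt h1
  have hn : (0 : ℝ) < (n : ℝ) + 1 := by positivity
  rw [one_div_mul_one_div, mul_one_div, div_lt_iff₀ (by positivity)] at h5
  linarith

/-- The exceptional null set for oscillation `1/(n+1)`. -/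
theorem osc_ae {Γ : Type u} (h : #Γ < Cardinal.lift.{u} nonSN) (φ : Γ → X →L[ℝ] ℝ)
    (hφ : ∀ γ, ‖φ γ‖ ≤ 1) (f : unitInterval → X) (x : X)
    (hf : HasRiemannIntegral f x) (n : ℕ) :
    ∀ᵐ z : ℝ, ∀ γ : Γ, ∃ N : ℕ, 0 < N ∧ ∀ j : Fin N, InCell N j z → j ∉ Osc (φ γ) f n N := by
  classical
  have hN : ∀ k : ℕ, ∃ N : ℕ, 0 < N ∧
      ∀ γ : Γ, ((Osc (φ γ) f n N).card : ℝ) ≤ (1 / 4) ^ k * N := by
    intro k
    obtain ⟨N, hN, hN2⟩ := grid_close hf ((1 / 4) ^ k / (n + 1)) (by positivity)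
    refine ⟨N, hN, fun γ => ?_⟩
    have := card_Osc (φ γ) (hφ γ) f n N ((1 / 4) ^ k / (n + 1)) hN (hN2 N le_rfl)
    have hn : (0 : ℝ) < (n : ℝ) + 1 := by positivity
    rwa [div_mul_cancel₀ _ hn.ne'] at this
  choose N hN0 hN1 using hN
  obtain ⟨S, hS⟩ := guess h (fun k => Finset (Fin (N k))) (fun γ k => Osc (φ γ) f n (N k))
  let V : ℕ → Set ℝ := fun k => if ((S k).card : ℝ) ≤ (1 / 4) ^ k * N k then
    ⋃ j ∈ S k, Set.Icc (((j : Fin (N k)) : ℝ) / N k) ((((j : Fin (N k)) : ℝ) + 1) / N k) else ∅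
  have hV : ∀ k, volume (V k) ≤ ENNReal.ofReal ((1 / 4) ^ k) := by
    intro k
    simp only [V]
    split_ifs with hk
    · have hNk : (0 : ℝ) < N k := by exact_mod_cast hN0 k
      refine (measure_biUnion_finset_le _ _).trans ?_
      have : ∀ j : Fin (N k), volume (Set.Icc (((j : Fin (N k)) : ℝ) / N k)
          ((((j : Fin (N k)) : ℝ) + 1) / N k)) = ENNReal.ofReal (1 / N k) := by
        intro j; rw [Real.volume_Icc]; congr 1; ring
      simp_rw [this]
      rw [Finset.sum_const, nsmul_eq_mul, ← ENNReal.ofReal_natCast,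
        ← ENNReal.ofReal_mul (Nat.cast_nonneg _)]
      apply ENNReal.ofReal_le_ofReal
      rw [mul_one_div, div_le_iff₀ hNk]
      exact hk
    · simp
  have hsum : ∑' k, volume (V k) ≠ ⊤ := by
    have h1 : ∑' k, volume (V k) ≤ ∑' k : ℕ, ENNReal.ofReal ((1 / 4 : ℝ) ^ k) :=
      ENNReal.tsum_le_tsum hV
    have h3 : ∑' k : ℕ, ENNReal.ofReal ((1 / 4 : ℝ) ^ k) < ⊤ := by
      rw [← ENNReal.ofReal_tsum_of_nonneg (fun n => by positivity)
        (summable_geometric_of_lt_one (by norm_num) (by norm_num))]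
      exact ENNReal.ofReal_lt_top
    exact (h1.trans_lt h3).ne
  filter_upwards [ae_eventually_notMem hsum] with z hz γ
  rw [eventually_atTop] at hz
  obtain ⟨m, hm⟩ := hz
  obtain ⟨k, hk, hk2⟩ := hS γ m
  refine ⟨N k, hN0 k, fun j hj hjO => ?_⟩
  apply hm k hk
  simp only [V]
  rw [← hk2, if_pos (hN1 k γ), mem_iUnion₂]
  exact ⟨j, hjO, hj⟩

/-- Outside a null set all `φ γ ∘ f` are continuous. -/
theorem coord_cont_ae {Γ : Type u} (h : #Γ < Cardinal.lift.{u} nonSN) (φ : Γ → X →L[ℝ] ℝ)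
    (hφ : ∀ γ, ‖φ γ‖ ≤ 1) (f : unitInterval → X) (x : X) (hf : HasRiemannIntegral f x) :
    ∀ᵐ t : unitInterval, ∀ γ : Γ, ContinuousAt (fun s => φ γ (f s)) t := by
  classical
  have h1 : ∀ᵐ z : ℝ, Irrational z ∧ ∀ n : ℕ, ∀ γ : Γ, ∃ N : ℕ, 0 < N ∧
      ∀ j : Fin N, InCell N j z → j ∉ Osc (φ γ) f n N := by
    have h2 : ∀ᵐ z : ℝ, Irrational z := (Set.countable_range (Rat.cast : ℚ → ℝ)).ae_notMem volume
    have h3 := ae_all_iff.mpr (osc_ae h φ hφ f x hf)
    filter_upwards [h2, h3] with z hz1 hz2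
    exact ⟨hz1, hz2⟩
  have h2 : ∀ᵐ t : unitInterval, Irrational (t : ℝ) ∧ ∀ n : ℕ, ∀ γ : Γ, ∃ N : ℕ, 0 < N ∧
      ∀ j : Fin N, InCell N j (t : ℝ) → j ∉ Osc (φ γ) f n N :=
    (ae_restrict_iff_subtype (s := unitInterval) measurableSet_Icc
      (p := fun z => Irrational z ∧ ∀ n : ℕ, ∀ γ : Γ, ∃ N : ℕ, 0 < N ∧
      ∀ j : Fin N, InCell N j z → j ∉ Osc (φ γ) f n N)).mp (ae_restrict_of_ae h1)
  filter_upwards [h2] with t ht γ
  obtain ⟨hirr, hosc⟩ := ht
  rw [Metric.continuousAt_iff]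
  intro ε hε
  obtain ⟨n, hn⟩ := exists_nat_one_div_lt hε
  obtain ⟨N, hN, hj⟩ := hosc n γ
  have hN' : (0 : ℝ) < N := by exact_mod_cast hN
  obtain ⟨j, hjN, hj1, hj2⟩ := exists_cell N hN t
  have hlt1 : (j : ℝ) / N < t := by
    refine lt_of_le_of_ne hj1 (fun heq => ?_)
    apply hirr
    exact ⟨(j : ℚ) / N, by push_cast; exact heq⟩
  have hlt2 : (t : ℝ) < ((j : ℝ) + 1) / N := by
    refine lt_of_le_of_ne hj2 (fun heq => ?_)
    apply hirr
    exact ⟨((j : ℚ) + 1) / N, by push_cast; exact heq.symm⟩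
  refine ⟨min (t - (j : ℝ) / N) (((j : ℝ) + 1) / N - t), lt_min (by linarith) (by linarith), ?_⟩
  intro s hs
  rw [Subtype.dist_eq, Real.dist_eq, lt_min_iff, abs_lt, abs_lt] at hs
  have hsc : InCell N j s := ⟨by linarith [hs.1.1], by linarith [hs.2.2]⟩
  have hno := hj ⟨j, hjN⟩ ⟨hj1, hj2⟩
  by_contra hcon
  push Not at hcon
  rw [Real.dist_eq] at hcon
  apply hno
  rw [Osc, Finset.mem_filter]
  refine ⟨Finset.mem_univ _, ?_⟩
  have hbig : 1 / ((n : ℝ) + 1) < |φ γ (f s) - φ γ (f t)| := hn.trans_le hcon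
  rcases lt_abs.mp hbig with hb | hb
  · exact ⟨s, t, hsc, ⟨hj1, hj2⟩, hb⟩
  · exact ⟨t, s, ⟨hj1, hj2⟩, hsc, by linarith⟩

/-- bounded and continuous for a family of functionals with dense span implies weakly
continuous -/
theorem weak_cont {Γ : Type u} (φ : Γ → StrongDual ℝ X)
    (hd : Dense (Submodule.span ℝ (range φ) : Set (StrongDual ℝ X))) (f : unitInterval → X)
    (C : ℝ) (hC : ∀ t, ‖f t‖ ≤ C) (t : unitInterval)
    (hcoord : ∀ γ : Γ, ContinuousAt (fun s => φ γ (f s)) t) :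
    ContinuousAt (fun s => toWeakSpace ℝ X (f s)) t := by
  apply tendsto_weak
  intro ψ
  have hC0 : 0 ≤ C := (norm_nonneg _).trans (hC t)
  have hspan : ∀ χ ∈ Submodule.span ℝ (range φ),
      Tendsto (fun s => χ (f s)) (𝓝 t) (𝓝 (χ (f t))) := by
    intro χ hχ
    induction hχ using Submodule.span_induction with
    | mem χ hχ =>
      obtain ⟨γ, rfl⟩ := hχ
      exact hcoord γ
    | zero => simp
    | add χ₁ χ₂ _ _ h1 h2 => exact h1.add h2
    | smul c χ _ h1 => exact h1.const_smul c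
  rw [Metric.tendsto_nhds]
  intro ε hε
  obtain ⟨χ, hχ1, hχ2⟩ := Metric.dense_iff.1 hd ψ (ε / (4 * (C + 1))) (by positivity)
  rw [Metric.mem_ball, dist_comm, dist_eq_norm] at hχ1
  have h1 := Metric.tendsto_nhds.1 (hspan χ hχ2) (ε / 2) (by positivity)
  filter_upwards [h1] with s hs
  rw [Real.dist_eq] at hs ⊢
  have e1 : ψ (f s) - ψ (f t) = (χ (f s) - χ (f t)) + (ψ - χ) (f s - f t) := by
    simp only [map_sub, ContinuousLinearMap.sub_apply]
    ring
  have e2 : |(ψ - χ) (f s - f t)| ≤ ε / 2 := by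
    have h2 : ‖f s - f t‖ ≤ 2 * C := by
      refine (norm_sub_le _ _).trans ?_
      linarith [hC s, hC t]
    have h3 := (ψ - χ).le_opNorm (f s - f t)
    rw [Real.norm_eq_abs] at h3
    refine h3.trans ?_
    calc ‖ψ - χ‖ * ‖f s - f t‖ ≤ (ε / (4 * (C + 1))) * (2 * C) :=
          mul_le_mul hχ1.le h2 (norm_nonneg _) (by positivity)
      _ ≤ ε / 2 := by
          rw [div_mul_eq_mul_div, div_le_div_iff₀ (by positivity) (by norm_num)]
          nlinarith
  rw [e1]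
  refine (abs_add_le _ _).trans_lt ?_
  linarith

/-- **The weak Lebesgue property for spaces with a small dual.** -/
theorem WLP_of_small {Γ : Type u} (h : #Γ < Cardinal.lift.{u} nonSN) (φ : Γ → StrongDual ℝ X)
    (hd : Dense (Submodule.span ℝ (range φ) : Set (StrongDual ℝ X))) : WLP X := by
  rintro f ⟨x, hf⟩
  obtain ⟨C, hC⟩ := bounded_of_integrable hf
  have hpos : ∀ γ, 0 < ‖φ γ‖ + 1 := fun γ => by positivity
  have hφ' : ∀ γ, ‖(‖φ γ‖ + 1)⁻¹ • φ γ‖ ≤ 1 := by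
    intro γ
    rw [norm_smul, norm_inv, Real.norm_of_nonneg (hpos γ).le, inv_mul_le_iff₀ (hpos γ), mul_one]
    linarith
  filter_upwards [coord_cont_ae h (fun γ => (‖φ γ‖ + 1)⁻¹ • φ γ) hφ' f x hf] with t ht
  refine weak_cont φ hd f C hC t fun γ => ?_
  have h1 := (ht γ).const_smul (‖φ γ‖ + 1)
  have h2 : (fun s => φ γ (f s)) =
      fun s => (‖φ γ‖ + 1) • ((‖φ γ‖ + 1)⁻¹ • φ γ) (f s) := by
    funext s
    rw [ContinuousLinearMap.smul_apply, smul_smul, mul_inv_cancel₀ (hpos γ).ne', one_smul]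
  rw [h2]
  exact h1

end Pool.Agent.Y276.WL
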